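import Pool.Agent.Run7.h998.LT.Stm

/-! Common lemmas for the pieces GRAD, WEAK1, WEAK2, WEAK3 of helper998's project
MP_c84763_mp. -/

set_option autoImplicit false

open MeasureTheory Filter Topology Set
open scoped ENNReal NNReal ContDiff

namespace Pool.Agent.Run7.h102.LT

open Pool.Agent.Helper41.CE Pool.Agent.Run7.h998.LT

/-- Evaluation of a polynomial at a point. -/
noncomputable abbrev ev {d : ℕ} (P : MvPolynomial (Fin d) ℝ) (x : E d) : ℝ :=
  MvPolynomial.eval (fun i => x i) P

theorem ev_cont {d : ℕ} (P : MvPolynomial (Fin d) ℝ) : Continuous (ev P) := by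
  unfold ev
  induction P using MvPolynomial.induction_on with
  | C a => simpa using continuous_const
  | add p q hp hq =>
    simp only [map_add]
    exact hp.add hq
  | mul_X p i hp =>
    simp only [map_mul, MvPolynomial.eval_X]
    exact hp.mul (EuclideanSpace.proj i : E d →L[ℝ] ℝ).continuous

theorem ev_hasFDerivAt {d : ℕ} (P : MvPolynomial (Fin d) ℝ) (x : E d) :
    HasFDerivAt (ev P) (∑ i, (ev (MvPolynomial.pderiv i P) x) •
      (EuclideanSpace.proj i : E d →L[ℝ] ℝ)) x := by
  unfold ev
  induction P using MvPolynomial.induction_on with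
  | C a =>
    have := hasFDerivAt_const (𝕜 := ℝ) a x
    refine this.congr_fderiv ?_ |>.congr_of_eventuallyEq ?_
    · simp
    · exact Filter.Eventually.of_forall (fun y => by simp)
  | add p q hp hq =>
    have := hp.add hq
    refine this.congr_fderiv ?_ |>.congr_of_eventuallyEq ?_
    · rw [← Finset.sum_add_distrib]
      apply Finset.sum_congr rfl
      intro i _
      rw [map_add, map_add, add_smul]
    · exact Filter.Eventually.of_forall (fun y => by simp)
  | mul_X p j hp =>
    have h2 : HasFDerivAt (fun y : E d => y j) (EuclideanSpace.proj j : E d →L[ℝ] ℝ) x :=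
      (EuclideanSpace.proj j : E d →L[ℝ] ℝ).hasFDerivAt
    have := hp.mul h2
    refine this.congr_fderiv ?_ |>.congr_of_eventuallyEq ?_
    · rw [Finset.smul_sum]
      have : ∀ i, MvPolynomial.eval (fun i => x i) (MvPolynomial.pderiv i (p * MvPolynomial.X j)) •
          (EuclideanSpace.proj i : E d →L[ℝ] ℝ) =
          (if i = j then (MvPolynomial.eval (fun i => x i) p) • (EuclideanSpace.proj j : E d →L[ℝ] ℝ) else 0)
          + x j • (MvPolynomial.eval (fun i => x i) (MvPolynomial.pderiv i p)) •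
            (EuclideanSpace.proj i : E d →L[ℝ] ℝ) := by
        intro i
        rw [Derivation.leibniz, map_add]
        simp only [smul_eq_mul, map_mul, MvPolynomial.eval_X]
        by_cases hij : i = j
        · subst hij
          rw [if_pos rfl, MvPolynomial.pderiv_X_self]
          simp only [map_one, mul_one]
          rw [add_smul, mul_smul]
        · rw [if_neg hij, MvPolynomial.pderiv_X_of_ne (Ne.symm hij)]
          simp only [map_zero, mul_zero, zero_add]
          rw [mul_smul]
      simp_rw [this]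
      rw [Finset.sum_add_distrib, Finset.sum_ite_eq' Finset.univ j]
      simp
    · exact Filter.Eventually.of_forall (fun y => by simp)

theorem ev_bound {d : ℕ} (P : MvPolynomial (Fin d) ℝ) :
    ∃ (K : ℝ) (N : ℕ), 0 ≤ K ∧ ∀ x : E d, |ev P x| ≤ K * (1 + ‖x‖) ^ N := by
  unfold ev
  induction P using MvPolynomial.induction_on with
  | C a => exact ⟨|a|, 0, abs_nonneg a, fun x => by simp⟩
  | add p q hp hq =>
    obtain ⟨K, N, hK, h1⟩ := hp
    obtain ⟨K', N', hK', h2⟩ := hq
    refine ⟨K + K', N + N', by positivity, fun x => ?_⟩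
    have hx : 1 ≤ 1 + ‖x‖ := by have := norm_nonneg x; linarith
    rw [map_add]
    calc |_ + _| ≤ K * (1 + ‖x‖) ^ N + K' * (1 + ‖x‖) ^ N' :=
          (abs_add_le _ _).trans (add_le_add (h1 x) (h2 x))
      _ ≤ K * (1 + ‖x‖) ^ (N + N') + K' * (1 + ‖x‖) ^ (N + N') := by
          have e1 : (1 + ‖x‖) ^ N ≤ (1 + ‖x‖) ^ (N + N') := pow_le_pow_right₀ hx (by omega)
          have e2 : (1 + ‖x‖) ^ N' ≤ (1 + ‖x‖) ^ (N + N') := pow_le_pow_right₀ hx (by omega)
          exact add_le_add (mul_le_mul_of_nonneg_left e1 hK) (mul_le_mul_of_nonneg_left e2 hK')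
      _ = (K + K') * (1 + ‖x‖) ^ (N + N') := by ring
  | mul_X p i hp =>
    obtain ⟨K, N, hK, h1⟩ := hp
    refine ⟨K, N + 1, hK, fun x => ?_⟩
    rw [map_mul, MvPolynomial.eval_X, abs_mul, pow_succ, ← mul_assoc]
    have h2 : |x i| ≤ 1 + ‖x‖ := by
      have := PiLp.norm_apply_le x i
      rw [Real.norm_eq_abs] at this
      linarith
    exact mul_le_mul (h1 x) h2 (abs_nonneg _) (by have := norm_nonneg x; positivity)

theorem psi_hasFDerivAt {d : ℕ} (P : MvPolynomial (Fin d) ℝ) (G G1 : ℝ → ℂ)
    (hG : ∀ s, HasDerivAt G (G1 s) s) (x : E d) :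
    HasFDerivAt (psi P G) (∑ i, (EuclideanSpace.proj i : E d →L[ℝ] ℝ).smulRight
      (dpsi P G G1 i x)) x := by
  have h1 : HasFDerivAt (fun y : E d => ((ev P y : ℝ) : ℂ))
      (Complex.ofRealCLM.comp (∑ i, (ev (MvPolynomial.pderiv i P) x) •
      (EuclideanSpace.proj i : E d →L[ℝ] ℝ))) x :=
    Complex.ofRealCLM.hasFDerivAt.comp x (ev_hasFDerivAt P x)
  have h2 : HasFDerivAt (fun y : E d => ‖y‖ ^ 2) (2 • (innerSL ℝ x)) x := by
    simpa using (hasStrictFDerivAt_norm_sq x).hasFDerivAt
  have h3 : HasFDerivAt (fun y : E d => G (‖y‖ ^ 2))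
      ((2 • (innerSL ℝ x)).smulRight (G1 (‖x‖ ^ 2))) x := by
    refine ((hG (‖x‖ ^ 2)).hasFDerivAt.comp x h2).congr_fderiv ?_
    ext v
    simp
    ring
  refine (h1.mul h3).congr_fderiv ?_
  ext v
  simp only [_root_.add_apply, _root_.smul_apply,
    ContinuousLinearMap.smulRight_apply, ContinuousLinearMap.coe_comp, Function.comp_apply,
    _root_.sum_apply, Complex.ofRealCLM_apply, smul_eq_mul, PiLp.proj_apply,
    innerSL_apply_apply, nsmul_eq_mul, Complex.real_smul]
  have hin : inner ℝ x v = ∑ i, x i * v i := by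
    simp [PiLp.inner_apply, mul_comm]
  rw [hin]
  unfold dpsi
  push_cast
  rw [Finset.mul_sum, Finset.sum_mul, Finset.mul_sum, Finset.mul_sum]
  rw [← Finset.sum_add_distrib]
  apply Finset.sum_congr rfl
  intro i _
  ring

theorem psi_pd {d : ℕ} (P : MvPolynomial (Fin d) ℝ) (G G1 : ℝ → ℂ)
    (hG : ∀ s, HasDerivAt G (G1 s) s) (i : Fin d) (x : E d) :
    fderiv ℝ (psi P G) x (EuclideanSpace.single i 1) = dpsi P G G1 i x := by
  rw [(psi_hasFDerivAt P G G1 hG x).fderiv]
  simp only [_root_.sum_apply, ContinuousLinearMap.smulRight_apply,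
    PiLp.proj_apply]
  rw [Finset.sum_eq_single i]
  · simp
  · intro j _ hj
    simp [hj]
  · intro h
    exact absurd (Finset.mem_univ i) h

theorem psi_cont {d : ℕ} (P : MvPolynomial (Fin d) ℝ) (G : ℝ → ℂ) (hG : Continuous G) :
    Continuous (psi P G) := by
  unfold psi
  exact (Complex.continuous_ofReal.comp (ev_cont P)).mul (hG.comp (continuous_norm.pow 2))

theorem dpsi_cont {d : ℕ} (P : MvPolynomial (Fin d) ℝ) (G G1 : ℝ → ℂ) (hG : Continuous G)
    (hG1 : Continuous G1) (i : Fin d) : Continuous (dpsi P G G1 i) := by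
  unfold dpsi
  refine Continuous.add ?_ ?_
  · exact (Complex.continuous_ofReal.comp (ev_cont _)).mul (hG.comp (continuous_norm.pow 2))
  · refine Continuous.mul (Continuous.mul (continuous_const.mul ?_)
      (Complex.continuous_ofReal.comp (ev_cont P))) (hG1.comp (continuous_norm.pow 2))
    exact Complex.continuous_ofReal.comp (EuclideanSpace.proj i : E d →L[ℝ] ℝ).continuous

theorem pd_cont {d : ℕ} (i : Fin d) (φ : E d → ℂ) (hφ : IsTest φ) : Continuous (pd i φ) := by
  unfold pd
  have := hφ.1.continuous_fderiv (by simp)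
  exact this.clm_apply continuous_const

theorem pd_cs {d : ℕ} (i : Fin d) (φ : E d → ℂ) (hφ : IsTest φ) : HasCompactSupport (pd i φ) := by
  have h := hφ.2.fderiv (𝕜 := ℝ)
  unfold pd
  exact h.comp_left (g := fun L : E d →L[ℝ] ℂ => L (EuclideanSpace.single i 1)) (by simp)

theorem int_mul_test {d : ℕ} (f : E d → ℂ) (hf : Continuous f) (φ : E d → ℂ) (hφ : Continuous φ)
    (hc : HasCompactSupport φ) : Integrable (fun x => f x * φ x) volume :=
  (hf.mul hφ).integrable_of_hasCompactSupport hc.mul_left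

/-- Integration by parts against a test function. -/
theorem ibp {d : ℕ} (f : E d → ℂ) (F : E d → ℂ) (i : Fin d) (hf : Differentiable ℝ f)
    (hF : ∀ x, fderiv ℝ f x (EuclideanSpace.single i 1) = F x) (hFc : Continuous F)
    (φ : E d → ℂ) (hφ : IsTest φ) : pair f (pd i φ) = - pair F φ := by
  have h := integral_mul_fderiv_eq_neg_fderiv_mul_of_integrable (μ := (volume : Measure (E d)))
    (f := f) (g := φ) (v := EuclideanSpace.single i 1) ?_ ?_ ?_ (fun x _ => hf x)
    (fun x _ => (hφ.1.differentiable (by simp)) x)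
  · unfold pair pd
    rw [h]
    simp_rw [hF]
  · simp_rw [hF]
    exact int_mul_test F hFc φ hφ.1.continuous hφ.2
  · exact int_mul_test f hf.continuous (pd i φ) (pd_cont i φ hφ) (pd_cs i φ hφ)
  · exact int_mul_test f hf.continuous φ hφ.1.continuous hφ.2

end Pool.Agent.Run7.h102.LT
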