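import Pool.Agent.Run7.h102.LT.Base

/-! Piece GRAD of helper998's project MP_c84763_mp. -/

set_option autoImplicit false

open MeasureTheory Filter Topology Set
open scoped ENNReal NNReal ContDiff

namespace Pool.Agent.Run7.h102.LT

open Pool.Agent.Helper41.CE Pool.Agent.Run7.h998.LT

/-- `(1+t)^M exp(-ρ t)` is bounded on `t ≥ 0`. -/
theorem pow_exp_bound (M : ℕ) (ρ : ℝ) (hρ : 0 < ρ) : ∃ K : ℝ, 0 ≤ K ∧ ∀ t : ℝ, 0 ≤ t →
    (1 + t) ^ M * Real.exp (-(ρ * t)) ≤ K := by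
  let a : ℝ := ρ / (M + 1)
  have ha : 0 < a := by positivity
  let L : ℝ := max 1 (1 / a)
  have hL1 : 1 ≤ L := le_max_left _ _
  have hL2 : 1 ≤ L * a := by
    have : 1 / a ≤ L := le_max_right _ _
    rw [div_le_iff₀ ha] at this
    exact this
  refine ⟨L ^ M, by positivity, fun t ht => ?_⟩
  have h1 : 1 + t ≤ L * Real.exp (a * t) := by
    have h2 : a * t + 1 ≤ Real.exp (a * t) := Real.add_one_le_exp _
    have h3 : L * (a * t + 1) ≤ L * Real.exp (a * t) := mul_le_mul_of_nonneg_left h2 (by linarith)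
    have h4 : t ≤ L * a * t := le_mul_of_one_le_left ht hL2
    nlinarith
  have h5 : (1 + t) ^ M ≤ L ^ M * Real.exp (M * (a * t)) := by
    calc (1 + t) ^ M ≤ (L * Real.exp (a * t)) ^ M := pow_le_pow_left₀ (by linarith) h1 M
      _ = L ^ M * Real.exp (M * (a * t)) := by rw [mul_pow, ← Real.exp_nat_mul]
  have h6 : Real.exp (M * (a * t)) * Real.exp (-(ρ * t)) ≤ 1 := by
    rw [← Real.exp_add, Real.exp_le_one_iff]
    have : (M : ℝ) * a ≤ ρ := by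
      have e : (M : ℝ) * a = ρ * (M / (M + 1)) := by
        simp only [a]; ring
      rw [e]
      apply mul_le_of_le_one_right hρ.le
      rw [div_le_one (by positivity)]
      linarith
    nlinarith
  calc (1 + t) ^ M * Real.exp (-(ρ * t)) ≤ L ^ M * Real.exp (M * (a * t)) * Real.exp (-(ρ * t)) :=
        mul_le_mul_of_nonneg_right h5 (Real.exp_pos _).le
    _ = L ^ M * (Real.exp (M * (a * t)) * Real.exp (-(ρ * t))) := by ring
    _ ≤ L ^ M * 1 := mul_le_mul_of_nonneg_left h6 (by positivity)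
    _ = L ^ M := mul_one _

theorem memLp_of_bound {d : ℕ} (f : E d → ℂ) (hf : Continuous f) (K ρ : ℝ) (M : ℕ) (hρ : 0 < ρ)
    (hK : 0 ≤ K) (hb : ∀ x, ‖f x‖ ≤ K * (1 + ‖x‖) ^ M * Real.exp (-(ρ * ‖x‖))) :
    MemLp f 2 volume := by
  obtain ⟨L, hL, hLb⟩ := pow_exp_bound (M + (d + 1)) ρ hρ
  have h1 : ∀ x, ‖f x‖ ≤ K * L * (1 + ‖x‖) ^ (-((d + 1 : ℕ) : ℝ)) := by
    intro x
    have hx : (0 : ℝ) < 1 + ‖x‖ := by positivity
    rw [Real.rpow_neg hx.le, Real.rpow_natCast]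
    rw [← div_eq_mul_inv, le_div_iff₀ (by positivity)]
    calc ‖f x‖ * (1 + ‖x‖) ^ (d + 1)
        ≤ K * (1 + ‖x‖) ^ M * Real.exp (-(ρ * ‖x‖)) * (1 + ‖x‖) ^ (d + 1) :=
          mul_le_mul_of_nonneg_right (hb x) (by positivity)
      _ = K * ((1 + ‖x‖) ^ (M + (d + 1)) * Real.exp (-(ρ * ‖x‖))) := by rw [pow_add]; ring
      _ ≤ K * L := mul_le_mul_of_nonneg_left (hLb _ (norm_nonneg x)) hK
  rw [memLp_two_iff_integrable_sq_norm hf.aestronglyMeasurable]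
  have h2 : Integrable (fun x : E d => (K * L) ^ 2 * (1 + ‖x‖) ^ (-((d + 1 : ℕ) : ℝ))) volume := by
    apply Integrable.const_mul
    apply integrable_one_add_norm
    simp
  refine h2.mono' (hf.norm.pow 2).aestronglyMeasurable (Filter.Eventually.of_forall fun x => ?_)
  have hx : (1 : ℝ) ≤ 1 + ‖x‖ := by have := norm_nonneg x; linarith
  have h3 : (1 + ‖x‖) ^ (-((d + 1 : ℕ) : ℝ)) ≤ 1 :=
    Real.rpow_le_one_of_one_le_of_nonpos hx (by
      have : (0 : ℝ) ≤ ((d + 1 : ℕ) : ℝ) := Nat.cast_nonneg _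
      linarith)
  have h4 : 0 < (1 + ‖x‖) ^ (-((d + 1 : ℕ) : ℝ)) := Real.rpow_pos_of_pos (by linarith) _
  rw [Real.norm_of_nonneg (by positivity)]
  calc ‖f x‖ ^ 2 ≤ (K * L * (1 + ‖x‖) ^ (-((d + 1 : ℕ) : ℝ))) ^ 2 :=
        pow_le_pow_left₀ (norm_nonneg _) (h1 x) 2
    _ = (K * L) ^ 2 * ((1 + ‖x‖) ^ (-((d + 1 : ℕ) : ℝ)) * (1 + ‖x‖) ^ (-((d + 1 : ℕ) : ℝ))) := by ring
    _ ≤ (K * L) ^ 2 * ((1 + ‖x‖) ^ (-((d + 1 : ℕ) : ℝ)) * 1) := by gcongr
    _ = _ := by ring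

theorem psi_memLp {d : ℕ} (P : MvPolynomial (Fin d) ℝ) (g : ℝ → ℂ) (hg : Continuous g)
    (C ρ : ℝ) (hρ : 0 < ρ) (hb : ∀ s : ℝ, 0 ≤ s → ‖g s‖ ≤ C * Real.exp (-(ρ * Real.sqrt s))) :
    MemLp (psi P g) 2 volume := by
  obtain ⟨K, N, hK, hP⟩ := ev_bound P
  have hC : 0 ≤ C := by
    have := hb 0 le_rfl
    simp only [Real.sqrt_zero, mul_zero, neg_zero, Real.exp_zero, mul_one] at this
    exact (norm_nonneg _).trans this
  apply memLp_of_bound _ (psi_cont P g hg) (K * C) ρ N hρ (by positivity)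
  intro x
  have h1 := hb (‖x‖ ^ 2) (by positivity)
  rw [Real.sqrt_sq (norm_nonneg x)] at h1
  have h2 := hP x
  unfold psi
  rw [norm_mul, Complex.norm_real, Real.norm_eq_abs]
  calc _ ≤ K * (1 + ‖x‖) ^ N * (C * Real.exp (-(ρ * ‖x‖))) :=
        mul_le_mul h2 h1 (norm_nonneg _) (by positivity)
    _ = _ := by ring

theorem dpsi_eq {d : ℕ} (P : MvPolynomial (Fin d) ℝ) (G G1 : ℝ → ℂ) (i : Fin d) :
    dpsi P G G1 i = fun x =>
      psi (MvPolynomial.pderiv i P) G x + psi (MvPolynomial.C 2 * MvPolynomial.X i * P) G1 x := by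
  funext x
  unfold dpsi psi
  simp only [map_mul, MvPolynomial.eval_C, MvPolynomial.eval_X]
  push_cast
  ring

theorem p_GRAD : S_GRAD := by
  intro d ℓ ħ z P g g1 g2 hd hP hprof
  have cg : Continuous g := continuous_iff_continuousAt.mpr (fun s => (hprof.d1 s).continuousAt)
  obtain ⟨C, ρ, hρ, hb⟩ := hprof.dec
  refine ⟨psi_cont P g cg, psi_memLp P g cg C ρ hρ (fun s hs => (hb s hs).1), ?_⟩
  intro i
  refine ⟨?_, ?_⟩
  · rw [dpsi_eq]
    exact (psi_memLp _ g cg C ρ hρ (fun s hs => (hb s hs).1)).add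
      (psi_memLp _ g1 hprof.c1 C ρ hρ (fun s hs => (hb s hs).2))
  · intro φ hφ
    exact ibp _ _ i (fun x => (psi_hasFDerivAt P g g1 hprof.d1 x).differentiableAt)
      (psi_pd P g g1 hprof.d1 i) (dpsi_cont P g g1 cg hprof.c1 i) φ hφ

end Pool.Agent.Run7.h102.LT
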