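import Pool.Agent.Run7.h102.LT.Base

/-! Piece WEAK1 of helper998's project MP_c84763_mp. -/

set_option autoImplicit false

open MeasureTheory Filter Topology Set
open scoped ENNReal NNReal ContDiff

namespace Pool.Agent.Run7.h102.LT

open Pool.Agent.Helper41.CE Pool.Agent.Run7.h998.LT

theorem p_WEAK1 : S_WEAK1 := by
  intro d ℓ P G G1 G2 hd hP hG hG2 φ hφ
  have hPh : P.IsHomogeneous ℓ := (MvPolynomial.mem_homogeneousSubmodule ℓ P).mp hP.1
  have hPl : LapP d P = 0 := hP.2
  have hG0 : ∀ s, HasDerivAt G (G1 s) s := fun s => (hG s).1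
  have hG1 : ∀ s, HasDerivAt G1 (G2 s) s := fun s => (hG s).2
  have cG : Continuous G := continuous_iff_continuousAt.mpr (fun s => (hG0 s).continuousAt)
  have cG1 : Continuous G1 := continuous_iff_continuousAt.mpr (fun s => (hG1 s).continuousAt)
  have hsplit : ∀ i, dpsi P G G1 i = fun x =>
      psi (MvPolynomial.pderiv i P) G x + psi (MvPolynomial.C 2 * MvPolynomial.X i * P) G1 x := by
    intro i
    funext x
    unfold dpsi psi
    simp only [map_mul, MvPolynomial.eval_C, MvPolynomial.eval_X]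
    push_cast
    ring
  have hder : ∀ i x, HasFDerivAt (dpsi P G G1 i)
      ((∑ j, (EuclideanSpace.proj j : E d →L[ℝ] ℝ).smulRight
        (dpsi (MvPolynomial.pderiv i P) G G1 j x)) +
       (∑ j, (EuclideanSpace.proj j : E d →L[ℝ] ℝ).smulRight
        (dpsi (MvPolynomial.C 2 * MvPolynomial.X i * P) G1 G2 j x))) x := by
    intro i x
    rw [hsplit i]
    exact (psi_hasFDerivAt _ G G1 hG0 x).add (psi_hasFDerivAt _ G1 G2 hG1 x)
  have happ : ∀ i x, fderiv ℝ (dpsi P G G1 i) x (EuclideanSpace.single i 1) =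
      dpsi (MvPolynomial.pderiv i P) G G1 i x +
        dpsi (MvPolynomial.C 2 * MvPolynomial.X i * P) G1 G2 i x := by
    intro i x
    rw [(hder i x).fderiv, _root_.add_apply,
      ← (psi_hasFDerivAt _ G G1 hG0 x).fderiv, ← (psi_hasFDerivAt _ G1 G2 hG1 x).fderiv,
      psi_pd _ G G1 hG0, psi_pd _ G1 G2 hG1]
  have hib : ∀ i, pair (dpsi P G G1 i) (pd i φ) = - pair (fun x =>
      dpsi (MvPolynomial.pderiv i P) G G1 i x +
        dpsi (MvPolynomial.C 2 * MvPolynomial.X i * P) G1 G2 i x) φ := by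
    intro i
    apply ibp _ _ i (fun x => (hder i x).differentiableAt) (happ i) _ φ hφ
    exact (dpsi_cont _ _ _ cG cG1 i).add (dpsi_cont _ _ _ cG1 hG2 i)
  simp_rw [hib]
  rw [Finset.sum_neg_distrib]
  congr 1
  unfold pair
  rw [← MeasureTheory.integral_finsetSum]
  · congr 1
    funext x
    rw [← Finset.sum_mul]
    congr 1
    have e1 : ∑ i, ev (MvPolynomial.pderiv i (MvPolynomial.pderiv i P)) x = 0 := by
      have := congrArg (ev · x) hPl
      simp only [LapP, ev] at this
      simpa [LinearMap.sum_apply, map_sum] using this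
    have e2 : ∑ i, x i * ev (MvPolynomial.pderiv i P) x = ℓ * ev P x := by
      have := congrArg (ev · x) hPh.sum_X_mul_pderiv
      simpa [map_sum] using this
    have e3 : ‖x‖ ^ 2 = ∑ i, x i ^ 2 := by
      rw [EuclideanSpace.norm_sq_eq]
      simp
    have e4 : ∀ i, dpsi (MvPolynomial.pderiv i P) G G1 i x +
        dpsi (MvPolynomial.C 2 * MvPolynomial.X i * P) G1 G2 i x =
        ((ev (MvPolynomial.pderiv i (MvPolynomial.pderiv i P)) x : ℝ) : ℂ) * G (‖x‖ ^ 2) +
        ((4 * (x i * ev (MvPolynomial.pderiv i P) x) : ℝ) : ℂ) * G1 (‖x‖ ^ 2) +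
        ((2 * ev P x : ℝ) : ℂ) * G1 (‖x‖ ^ 2) +
        ((4 * (x i ^ 2) * ev P x : ℝ) : ℂ) * G2 (‖x‖ ^ 2) := by
      intro i
      unfold dpsi ev
      have e5 : MvPolynomial.pderiv i (MvPolynomial.C 2 * MvPolynomial.X i * P) =
          MvPolynomial.C 2 * (P + MvPolynomial.X i * MvPolynomial.pderiv i P) := by
        rw [mul_assoc, MvPolynomial.pderiv_C_mul, Derivation.leibniz,
          MvPolynomial.pderiv_X_self]
        simp only [smul_eq_mul, mul_one]
        ring
      rw [e5]
      simp only [map_mul, map_add, MvPolynomial.eval_C, MvPolynomial.eval_X]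
      push_cast
      ring
    have e6 : ∑ i, (4 * (x i ^ 2) * ev P x) = 4 * ‖x‖ ^ 2 * ev P x := by
      rw [e3, Finset.mul_sum, Finset.sum_mul]
    have e7 : ∑ i, (4 * (x i * ev (MvPolynomial.pderiv i P) x)) = 4 * (ℓ * ev P x) := by
      rw [← Finset.mul_sum, e2]
    have e8 : ∑ _i : Fin d, (2 * ev P x) = d * (2 * ev P x) := by
      simp
    simp_rw [e4]
    rw [Finset.sum_add_distrib, Finset.sum_add_distrib, Finset.sum_add_distrib,
      ← Finset.sum_mul, ← Finset.sum_mul, ← Finset.sum_mul, ← Finset.sum_mul,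
      ← Complex.ofReal_sum, ← Complex.ofReal_sum, ← Complex.ofReal_sum, ← Complex.ofReal_sum,
      e1, e7, e8, e6]
    unfold ev
    push_cast
    ring
  · intro i _
    exact int_mul_test _ ((dpsi_cont _ _ _ cG cG1 i).add (dpsi_cont _ _ _ cG1 hG2 i)) φ
      hφ.1.continuous hφ.2

end Pool.Agent.Run7.h102.LT
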