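import Pool.Agent.Run7.h102.LT.Base

/-! Piece WEAK2 of helper998's project MP_c84763_mp. -/

set_option autoImplicit false

open MeasureTheory Filter Topology Set
open scoped ENNReal NNReal ContDiff

namespace Pool.Agent.Run7.h102.LT

open Pool.Agent.Helper41.CE Pool.Agent.Run7.h998.LT

/-- derivative of `(t₊)^(k+2)` -/
theorem hasDerivAt_posPart_pow (k : ℕ) (t : ℝ) :
    HasDerivAt (fun t : ℝ => (max t 0) ^ (k + 2)) ((k + 2 : ℕ) * (max t 0) ^ (k + 1)) t := by
  rcases lt_trichotomy t 0 with h | h | h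
  · have h1 : (fun t : ℝ => (max t 0) ^ (k + 2)) =ᶠ[𝓝 t] fun _ => 0 := by
      filter_upwards [Iio_mem_nhds h] with y hy
      rw [max_eq_right (le_of_lt hy)]
      simp
    rw [max_eq_right h.le]
    simp only [ne_eq, Nat.add_eq_zero_iff, one_ne_zero, and_false, not_false_eq_true, zero_pow,
      mul_zero]
    exact (hasDerivAt_const t (0 : ℝ)).congr_of_eventuallyEq h1
  · subst h
    simp only [max_self, ne_eq, Nat.add_eq_zero_iff, one_ne_zero, and_false, not_false_eq_true,
      zero_pow, mul_zero]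
    rw [hasDerivAt_iff_isLittleO]
    simp only [max_self, sub_zero, smul_zero, ne_eq, Nat.add_eq_zero_iff, OfNat.ofNat_ne_zero,
      and_false, not_false_eq_true, zero_pow]
    have h1 : (fun x : ℝ => (max x 0) ^ (k + 2)) =O[𝓝 0] fun x : ℝ => x ^ (k + 2) := by
      apply Asymptotics.isBigO_of_le
      intro x
      rw [norm_pow, norm_pow]
      apply pow_le_pow_left₀ (norm_nonneg _)
      rw [Real.norm_eq_abs, Real.norm_eq_abs, abs_of_nonneg (le_max_right x 0)]
      exact max_le (le_abs_self x) (abs_nonneg x)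
    refine h1.trans_isLittleO ?_
    have h2 : (fun x : ℝ => x ^ (k + 2)) =o[𝓝 0] fun x : ℝ => x ^ 1 :=
      Asymptotics.isLittleO_pow_pow (by omega)
    simpa using h2
  · have h1 : (fun t : ℝ => (max t 0) ^ (k + 2)) =ᶠ[𝓝 t] fun t => t ^ (k + 2) := by
      filter_upwards [Ioi_mem_nhds h] with y hy
      rw [max_eq_left (le_of_lt hy)]
    rw [max_eq_left h.le]
    exact (hasDerivAt_pow (k + 2) t).congr_of_eventuallyEq h1

/-- `n (t₊ - (t - 1/n)₊)` -/
noncomputable def q1 (n : ℕ) (t : ℝ) : ℝ := (n + 1) * (max t 0 - max (t - 1 / (n + 1)) 0)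
/-- `n (t₊²/2 - (t - 1/n)₊²/2)` -/
noncomputable def q2 (n : ℕ) (t : ℝ) : ℝ :=
  (n + 1) * ((max t 0) ^ 2 / 2 - (max (t - 1 / (n + 1)) 0) ^ 2 / 2)
/-- `n (t₊³/6 - (t - 1/n)₊³/6)` -/
noncomputable def q3 (n : ℕ) (t : ℝ) : ℝ :=
  (n + 1) * ((max t 0) ^ 3 / 6 - (max (t - 1 / (n + 1)) 0) ^ 3 / 6)

theorem q1_cont (n : ℕ) : Continuous (q1 n) := by unfold q1; fun_prop

theorem q2_cont (n : ℕ) : Continuous (q2 n) := by unfold q2; fun_prop

theorem q3_cont (n : ℕ) : Continuous (q3 n) := by unfold q3; fun_prop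

theorem ab (n : ℕ) (t : ℝ) : 0 ≤ max t 0 - max (t - 1 / (n + 1)) 0 ∧
    (n + 1) * (max t 0 - max (t - 1 / (n + 1)) 0) ≤ 1 ∧ 0 ≤ max (t - 1 / (n + 1)) 0 := by
  have hn : (0 : ℝ) < 1 / (n + 1) := by positivity
  refine ⟨?_, ?_, le_max_right _ _⟩
  · have : max (t - 1 / (n + 1)) 0 ≤ max t 0 := max_le_max (by linarith) le_rfl
    linarith
  · have h1 : max t 0 - max (t - 1 / (n + 1)) 0 ≤ 1 / (n + 1) := by
      rcases le_total t 0 with h | h
      · rw [max_eq_right h]
        have := le_max_right (t - 1 / (n + 1)) 0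
        linarith
      · rw [max_eq_left h]
        have := le_max_left (t - 1 / (n + 1)) 0
        linarith
    have h2 : ((n : ℝ) + 1) * (1 / (n + 1)) = 1 := by field_simp
    calc _ ≤ ((n : ℝ) + 1) * (1 / (n + 1)) := mul_le_mul_of_nonneg_left h1 (by positivity)
      _ = 1 := h2

theorem q1_bd (n : ℕ) (t : ℝ) : |q1 n t| ≤ 1 := by
  obtain ⟨h1, h2, -⟩ := ab n t
  unfold q1
  rw [abs_of_nonneg (by positivity)]
  exact h2

theorem q2_bd (n : ℕ) (t : ℝ) : |q2 n t| ≤ max t 0 := by
  obtain ⟨h1, h2, h3⟩ := ab n t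
  set a := max t 0
  set b := max (t - 1 / (n + 1)) 0
  have e : q2 n t = ((n + 1) * (a - b)) * ((a + b) / 2) := by unfold q2; ring
  rw [e, abs_of_nonneg (by
    have : 0 ≤ a + b := by linarith
    positivity)]
  calc _ ≤ 1 * ((a + b) / 2) := mul_le_mul_of_nonneg_right h2 (by linarith)
    _ ≤ a := by linarith

theorem q3_bd (n : ℕ) (t : ℝ) : |q3 n t| ≤ (max t 0) ^ 2 / 2 := by
  obtain ⟨h1, h2, h3⟩ := ab n t
  set a := max t 0
  set b := max (t - 1 / (n + 1)) 0
  have ha : 0 ≤ a := by linarith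
  have e : q3 n t = ((n + 1) * (a - b)) * ((a ^ 2 + a * b + b ^ 2) / 6) := by unfold q3; ring
  rw [e, abs_of_nonneg (by positivity)]
  calc _ ≤ 1 * ((a ^ 2 + a * b + b ^ 2) / 6) := mul_le_mul_of_nonneg_right h2 (by positivity)
    _ ≤ a ^ 2 / 2 := by nlinarith

theorem q_lim (t : ℝ) : Tendsto (fun n => q1 n t) atTop (𝓝 (if 0 < t then 1 else 0)) ∧
    Tendsto (fun n => q2 n t) atTop (𝓝 (max t 0)) ∧
    Tendsto (fun n => q3 n t) atTop (𝓝 ((max t 0) ^ 2 / 2)) := by
  rcases le_or_gt t 0 with h | h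
  · have h1 : ∀ n : ℕ, max (t - 1 / ((n : ℝ) + 1)) 0 = 0 := by
      intro n
      have hn : (0 : ℝ) < 1 / ((n : ℝ) + 1) := by positivity
      exact max_eq_right (by linarith)
    have h2 : max t 0 = 0 := max_eq_right h
    rw [if_neg (not_lt.mpr h)]
    unfold q1 q2 q3
    simp only [h1, h2]
    simp
  · have hlim : Tendsto (fun n : ℕ => (1 : ℝ) / (n + 1)) atTop (𝓝 0) :=
      tendsto_one_div_add_atTop_nhds_zero_nat
    have hev : ∀ᶠ n : ℕ in atTop, (1 : ℝ) / (n + 1) < t := hlim.eventually_lt_const h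
    have h2 : max t 0 = t := max_eq_left h.le
    have h1 : ∀ n : ℕ, (1 : ℝ) / (n + 1) < t → max (t - 1 / ((n : ℝ) + 1)) 0 = t - 1 / (n + 1) :=
      fun n hn => max_eq_left (by linarith)
    rw [if_pos h, h2]
    refine ⟨?_, ?_, ?_⟩
    · refine Tendsto.congr' ?_ (tendsto_const_nhds)
      filter_upwards [hev] with n hn
      unfold q1
      rw [h1 n hn, h2]
      field_simp
      ring
    · have h3 : Tendsto (fun n : ℕ => t - 1 / ((n : ℝ) + 1) / 2) atTop (𝓝 (t - 0 / 2)) :=
        tendsto_const_nhds.sub (hlim.div_const 2)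
      rw [zero_div, sub_zero] at h3
      refine Tendsto.congr' ?_ h3
      filter_upwards [hev] with n hn
      unfold q2
      rw [h1 n hn, h2]
      field_simp
      ring
    · have h3 : Tendsto (fun n : ℕ => (t ^ 2 + t * (t - 1 / ((n : ℝ) + 1)) +
          (t - 1 / ((n : ℝ) + 1)) ^ 2) / 6) atTop (𝓝 ((t ^ 2 + t * (t - 0) + (t - 0) ^ 2) / 6)) :=
        ((tendsto_const_nhds.add (tendsto_const_nhds.mul (tendsto_const_nhds.sub hlim))).add
          ((tendsto_const_nhds.sub hlim).pow 2)).div_const 6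
      have e : (t ^ 2 + t * (t - 0) + (t - 0) ^ 2) / 6 = t ^ 2 / 2 := by ring
      rw [e] at h3
      refine Tendsto.congr' ?_ h3
      filter_upwards [hev] with n hn
      unfold q3
      rw [h1 n hn, h2]
      field_simp
      ring

theorem max_shift_pow (k : ℕ) (c t : ℝ) :
    HasDerivAt (fun s : ℝ => (max (s - c) 0) ^ (k + 2)) ((k + 2 : ℕ) * (max (t - c) 0) ^ (k + 1)) t :=
  HasDerivAt.comp_sub_const t c (hasDerivAt_posPart_pow k (t - c))

theorem q3_der (n : ℕ) (c s : ℝ) :
    HasDerivAt (fun s => ((q3 n (s - c) : ℝ) : ℂ)) ((q2 n (s - c) : ℝ) : ℂ) s := by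
  apply HasDerivAt.ofReal_comp
  have h1 := max_shift_pow 1 c s
  have h2 := max_shift_pow 1 (c + 1 / (n + 1)) s
  have h3 := ((h1.div_const 6).sub (h2.div_const 6)).const_mul ((n : ℝ) + 1)
  refine (h3.congr_deriv ?_).congr_of_eventuallyEq (Filter.Eventually.of_forall fun y => ?_)
  · unfold q2
    rw [← sub_sub]
    push_cast
    ring
  · simp only [q3, Pi.sub_apply]
    rw [← sub_sub]

theorem q2_der (n : ℕ) (c s : ℝ) :
    HasDerivAt (fun s => ((q2 n (s - c) : ℝ) : ℂ)) ((q1 n (s - c) : ℝ) : ℂ) s := by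
  apply HasDerivAt.ofReal_comp
  have h1 := max_shift_pow 0 c s
  have h2 := max_shift_pow 0 (c + 1 / (n + 1)) s
  have h3 := ((h1.div_const 2).sub (h2.div_const 2)).const_mul ((n : ℝ) + 1)
  refine (h3.congr_deriv ?_).congr_of_eventuallyEq (Filter.Eventually.of_forall fun y => ?_)
  · unfold q1
    rw [← sub_sub]
    push_cast
    ring
  · simp only [q2, Pi.sub_apply]
    rw [← sub_sub]

theorem p_WEAK2 (hW1 : S_WEAK1) : S_WEAK2 := by
  intro d ℓ P c hd hP φ hφ
  have hlhs : Tendsto (fun n : ℕ => ∑ i, pair (dpsi P (fun s => ((q3 n (s - c) : ℝ) : ℂ))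
      (fun s => ((q2 n (s - c) : ℝ) : ℂ)) i) (pd i φ)) atTop
      (𝓝 (∑ i, pair (dpsi P (fun s => (((max (s - c) 0) ^ 2 / 2 : ℝ) : ℂ))
          (fun s => ((max (s - c) 0 : ℝ) : ℂ)) i) (pd i φ))) := by
    apply tendsto_finsetSum
    intro i _
    unfold pair
    apply tendsto_integral_of_dominated_convergence (bound := fun x =>
      (|ev (MvPolynomial.pderiv i P) x| * ((max (‖x‖ ^ 2 - c) 0) ^ 2 / 2) +
        2 * |x i| * |ev P x| * (max (‖x‖ ^ 2 - c) 0)) * ‖pd i φ x‖)
    · intro n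
      have h1 : Continuous (fun s => ((q3 n (s - c) : ℝ) : ℂ)) :=
        Complex.continuous_ofReal.comp ((q3_cont n).comp (continuous_id.sub continuous_const))
      have h2 : Continuous (fun s => ((q2 n (s - c) : ℝ) : ℂ)) :=
        Complex.continuous_ofReal.comp ((q2_cont n).comp (continuous_id.sub continuous_const))
      exact ((dpsi_cont P _ _ h1 h2 i).mul (pd_cont i φ hφ)).aestronglyMeasurable
    · apply Continuous.integrable_of_hasCompactSupport
      · refine Continuous.mul ?_ (pd_cont i φ hφ).norm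
        refine Continuous.add ?_ ?_
        · exact (ev_cont _).abs.mul (by fun_prop)
        · refine Continuous.mul (Continuous.mul (continuous_const.mul ?_) (ev_cont _).abs) (by fun_prop)
          exact (EuclideanSpace.proj i : E d →L[ℝ] ℝ).continuous.abs
      · exact (pd_cs i φ hφ).norm.mul_left
    · intro n
      refine Filter.Eventually.of_forall fun x => ?_
      rw [norm_mul]
      apply mul_le_mul_of_nonneg_right _ (norm_nonneg _)
      unfold dpsi
      refine (norm_add_le _ _).trans (add_le_add ?_ ?_)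
      · rw [norm_mul, Complex.norm_real, Complex.norm_real, Real.norm_eq_abs, Real.norm_eq_abs]
        exact mul_le_mul_of_nonneg_left (q3_bd _ _) (abs_nonneg _)
      · rw [norm_mul, norm_mul, norm_mul, Complex.norm_real, Complex.norm_real, Complex.norm_real,
          Real.norm_eq_abs, Real.norm_eq_abs, Real.norm_eq_abs]
        simp only [Complex.norm_ofNat]
        exact mul_le_mul_of_nonneg_left (q2_bd _ _) (by positivity)
    · refine Filter.Eventually.of_forall fun x => ?_
      obtain ⟨-, h2, h3⟩ := q_lim (‖x‖ ^ 2 - c)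
      have h2' := (Complex.continuous_ofReal.tendsto _).comp h2
      have h3' := (Complex.continuous_ofReal.tendsto _).comp h3
      unfold dpsi
      exact ((h3'.const_mul _).add (h2'.const_mul _)).mul_const _
  have hrhs : Tendsto (fun n : ℕ => -pair (fun x => ((MvPolynomial.eval (fun j => x j) P : ℝ) : ℂ) *
          (4 * ((‖x‖ ^ 2 : ℝ) : ℂ) * ((q1 n (‖x‖ ^ 2 - c) : ℝ) : ℂ) +
            2 * ((d : ℂ) + 2 * ℓ) * ((q2 n (‖x‖ ^ 2 - c) : ℝ) : ℂ))) φ) atTop
      (𝓝 (-pair (fun x => ((MvPolynomial.eval (fun j => x j) P : ℝ) : ℂ) *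
          (4 * ((‖x‖ ^ 2 : ℝ) : ℂ) * (if c < ‖x‖ ^ 2 then 1 else 0) +
            2 * ((d : ℂ) + 2 * ℓ) * ((max (‖x‖ ^ 2 - c) 0 : ℝ) : ℂ))) φ)) := by
    apply Tendsto.neg
    unfold pair
    apply tendsto_integral_of_dominated_convergence (bound := fun x =>
      (|ev P x| * (4 * ‖x‖ ^ 2 * 1 + 2 * (d + 2 * ℓ) * (max (‖x‖ ^ 2 - c) 0))) * ‖φ x‖)
    · intro n
      have h1 : Continuous (fun x : E d => ((q1 n (‖x‖ ^ 2 - c) : ℝ) : ℂ)) :=
        Complex.continuous_ofReal.comp ((q1_cont n).comp (by fun_prop))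
      have h2 : Continuous (fun x : E d => ((q2 n (‖x‖ ^ 2 - c) : ℝ) : ℂ)) :=
        Complex.continuous_ofReal.comp ((q2_cont n).comp (by fun_prop))
      refine (Continuous.mul (Continuous.mul (Complex.continuous_ofReal.comp (ev_cont P)) ?_)
        hφ.1.continuous).aestronglyMeasurable
      refine Continuous.add (Continuous.mul ?_ h1) (continuous_const.mul h2)
      exact continuous_const.mul (Complex.continuous_ofReal.comp (continuous_norm.pow 2))
    · apply Continuous.integrable_of_hasCompactSupport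
      · refine Continuous.mul ((ev_cont P).abs.mul (by fun_prop)) hφ.1.continuous.norm
      · exact hφ.2.norm.mul_left
    · intro n
      refine Filter.Eventually.of_forall fun x => ?_
      rw [norm_mul]
      apply mul_le_mul_of_nonneg_right _ (norm_nonneg _)
      rw [norm_mul, Complex.norm_real, Real.norm_eq_abs]
      apply mul_le_mul_of_nonneg_left _ (abs_nonneg _)
      refine (norm_add_le _ _).trans (add_le_add ?_ ?_)
      · rw [norm_mul, norm_mul, Complex.norm_real, Complex.norm_real]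
        simp only [Complex.norm_ofNat, Real.norm_eq_abs]
        rw [abs_of_nonneg (by positivity : (0 : ℝ) ≤ ‖x‖ ^ 2)]
        exact mul_le_mul_of_nonneg_left (q1_bd _ _) (by positivity)
      · rw [norm_mul, norm_mul, Complex.norm_real]
        have h1 : ‖(d : ℂ) + 2 * ℓ‖ = (d : ℝ) + 2 * ℓ := by
          have : (d : ℂ) + 2 * ℓ = ((d + 2 * ℓ : ℝ) : ℂ) := by push_cast; ring
          rw [this, Complex.norm_real, Real.norm_of_nonneg (by positivity)]
        rw [h1]
        simp only [Complex.norm_ofNat, Real.norm_eq_abs]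
        exact mul_le_mul_of_nonneg_left (q2_bd _ _) (by positivity)
    · refine Filter.Eventually.of_forall fun x => ?_
      obtain ⟨h1, h2, -⟩ := q_lim (‖x‖ ^ 2 - c)
      have h1' := (Complex.continuous_ofReal.tendsto _).comp h1
      have h2' := (Complex.continuous_ofReal.tendsto _).comp h2
      have e : (((if 0 < ‖x‖ ^ 2 - c then 1 else 0 : ℝ)) : ℂ) = (if c < ‖x‖ ^ 2 then 1 else 0) := by
        simp only [sub_pos]
        split_ifs <;> simp
      rw [e] at h1'
      exact (((h1'.const_mul _).add (h2'.const_mul _)).const_mul _).mul_const _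
  refine tendsto_nhds_unique hlhs (hrhs.congr fun n => ?_)
  have hq1 : Continuous (fun s => ((q1 n (s - c) : ℝ) : ℂ)) :=
    Complex.continuous_ofReal.comp ((q1_cont n).comp (continuous_id.sub continuous_const))
  exact (hW1 d ℓ P (fun s => ((q3 n (s - c) : ℝ) : ℂ)) (fun s => ((q2 n (s - c) : ℝ) : ℂ))
    (fun s => ((q1 n (s - c) : ℝ) : ℂ)) hd hP (fun s => ⟨q3_der n c s, q2_der n c s⟩) hq1 φ hφ).symm

end Pool.Agent.Run7.h102.LT
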