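import Pool.Agent.Run7.h102.LT.PWEAK2

/-! Piece WEAK3 of helper998's project MP_c84763_mp. -/

set_option autoImplicit false

open MeasureTheory Filter Topology Set
open scoped ENNReal NNReal ContDiff

namespace Pool.Agent.Run7.h102.LT

open Pool.Agent.Helper41.CE Pool.Agent.Run7.h998.LT

theorem hasDerivAt_of_off (f f' : ℝ → ℂ) (S : Set ℝ) (hS : S.Countable) (hf : Continuous f)
    (hf' : Continuous f') (h : ∀ s ∉ S, HasDerivAt f (f' s) s) (s : ℝ) :
    HasDerivAt f (f' s) s := by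
  have h1 : ∀ t, f t = f 0 + ∫ x in (0 : ℝ)..t, f' x := by
    intro t
    have := MeasureTheory.integral_eq_of_hasDerivAt_off_countable f f' (a := 0) (b := t) hS
      hf.continuousOn (fun x hx => h x hx.2) (hf'.intervalIntegrable _ _)
    rw [this]
    ring
  have h2 : HasDerivAt (fun t => ∫ x in (0 : ℝ)..t, f' x) (f' s) s :=
    (hf'.integral_hasStrictDerivAt 0 s).hasDerivAt
  have h3 : f = fun t => f 0 + ∫ x in (0 : ℝ)..t, f' x := funext h1
  rw [h3]
  exact h2.const_add (f 0)

theorem posPart_deriv (c s : ℝ) (hs : s ≠ c) :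
    HasDerivAt (fun s : ℝ => ((max (s - c) 0 : ℝ) : ℂ)) (if c < s then 1 else 0) s := by
  rcases lt_or_gt_of_ne hs with h | h
  · rw [if_neg (not_lt.mpr h.le)]
    refine (hasDerivAt_const s (0 : ℂ)).congr_of_eventuallyEq ?_
    filter_upwards [Iio_mem_nhds h] with y hy
    rw [max_eq_right (by simp only [mem_Iio] at hy; linarith)]
    simp
  · rw [if_pos h]
    have h1 : HasDerivAt (fun s : ℝ => ((s - c : ℝ) : ℂ)) ((1 : ℝ) : ℂ) s :=
      ((hasDerivAt_id s).sub_const c).ofReal_comp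
    rw [Complex.ofReal_one] at h1
    refine h1.congr_of_eventuallyEq ?_
    filter_upwards [Ioi_mem_nhds h] with y hy
    rw [max_eq_left (by simp only [mem_Ioi] at hy; linarith)]

theorem posPart2_deriv (c s : ℝ) :
    HasDerivAt (fun s : ℝ => (((max (s - c) 0) ^ 2 / 2 : ℝ) : ℂ)) ((max (s - c) 0 : ℝ) : ℂ) s := by
  apply HasDerivAt.ofReal_comp
  refine ((max_shift_pow 0 c s).div_const 2).congr_deriv ?_
  push_cast
  ring

theorem intF {d ℓ : ℕ} (P : MvPolynomial (Fin d) ℝ) (c : ℝ) (φ : E d → ℂ) (hφ : IsTest φ) :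
    Integrable (fun x => (((MvPolynomial.eval (fun j => x j) P : ℝ) : ℂ) *
          (4 * ((‖x‖ ^ 2 : ℝ) : ℂ) * (if c < ‖x‖ ^ 2 then 1 else 0) +
            2 * ((d : ℂ) + 2 * ℓ) * ((max (‖x‖ ^ 2 - c) 0 : ℝ) : ℂ))) * φ x) volume := by
  have hb : Integrable (fun x =>
      (|ev P x| * (4 * ‖x‖ ^ 2 * 1 + 2 * (d + 2 * ℓ) * (max (‖x‖ ^ 2 - c) 0))) * ‖φ x‖) volume := by
    apply Continuous.integrable_of_hasCompactSupport
    · refine Continuous.mul ((ev_cont P).abs.mul (by fun_prop)) hφ.1.continuous.norm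
    · exact hφ.2.norm.mul_left
  refine hb.mono' ?_ (Filter.Eventually.of_forall fun x => ?_)
  · apply Measurable.aestronglyMeasurable
    have m1 : Measurable (fun x : E d => ((MvPolynomial.eval (fun j => x j) P : ℝ) : ℂ)) :=
      (Complex.continuous_ofReal.comp (ev_cont P)).measurable
    have m2 : Measurable (fun x : E d => ((‖x‖ ^ 2 : ℝ) : ℂ)) :=
      (Complex.continuous_ofReal.comp (continuous_norm.pow 2)).measurable
    have m3 : Measurable (fun x : E d => ((max (‖x‖ ^ 2 - c) 0 : ℝ) : ℂ)) :=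
      (Complex.continuous_ofReal.comp (by fun_prop)).measurable
    have m4 : Measurable (fun x : E d => (if c < ‖x‖ ^ 2 then (1 : ℂ) else 0)) :=
      Measurable.ite (measurableSet_lt measurable_const (continuous_norm.pow 2).measurable)
        measurable_const measurable_const
    exact (m1.mul (((measurable_const.mul m2).mul m4).add (measurable_const.mul m3))).mul
      hφ.1.continuous.measurable
  · rw [norm_mul]
    apply mul_le_mul_of_nonneg_right _ (norm_nonneg _)
    rw [norm_mul, Complex.norm_real, Real.norm_eq_abs]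
    apply mul_le_mul_of_nonneg_left _ (abs_nonneg _)
    refine (norm_add_le _ _).trans (add_le_add ?_ ?_)
    · rw [norm_mul, norm_mul, Complex.norm_real]
      simp only [Complex.norm_ofNat, Real.norm_eq_abs]
      rw [abs_of_nonneg (by positivity : (0 : ℝ) ≤ ‖x‖ ^ 2)]
      apply mul_le_mul_of_nonneg_left _ (by positivity)
      split_ifs <;> simp
    · rw [norm_mul, norm_mul, Complex.norm_real]
      have h1 : ‖(d : ℂ) + 2 * ℓ‖ = (d : ℝ) + 2 * ℓ := by
        have : (d : ℂ) + 2 * ℓ = ((d + 2 * ℓ : ℝ) : ℂ) := by push_cast; ring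
        rw [this, Complex.norm_real, Real.norm_of_nonneg (by positivity)]
      rw [h1]
      simp only [Complex.norm_ofNat, Real.norm_eq_abs]
      rw [abs_of_nonneg (le_max_right _ _)]

theorem p_WEAK3 (hW1 : S_WEAK1) (hW2 : S_WEAK2) : S_WEAK3 := by
  intro d ℓ ħ z P g g1 g2 hd hħ hP hprof φ hφ
  have cg : Continuous g := continuous_iff_continuousAt.mpr (fun s => (hprof.d1 s).continuousAt)
  have cg1 : Continuous g1 := hprof.c1
  have hħ0 : (ħ : ℂ) ≠ 0 := by exact_mod_cast hħ.ne'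
  -- auxiliary functions
  let B : ℝ → ℂ := fun s => g s / (4 * s * (ħ : ℂ) ^ 2)
  let A : ℝ → ℂ := fun s => (-(2 * ((d + 2 * ℓ : ℕ) : ℂ) * g1 s) - z / (ħ : ℂ) ^ 2 * g s) / (4 * s)
  let pr : ℝ → ℝ := fun s => max 1 (min s 4)
  let R : ℝ → ℂ := fun s => A s + Complex.I * (B (pr s) - B 1)
  let J1 : ℂ := Complex.I * B 1
  let J4 : ℂ := -(Complex.I * B 4)
  let G : ℝ → ℂ := fun s => g s - J1 * (((max (s - 1) 0) ^ 2 / 2 : ℝ) : ℂ) -
    J4 * (((max (s - 4) 0) ^ 2 / 2 : ℝ) : ℂ)
  let G1 : ℝ → ℂ := fun s => g1 s - J1 * ((max (s - 1) 0 : ℝ) : ℂ) -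
    J4 * ((max (s - 4) 0 : ℝ) : ℂ)
  let G2 : ℝ → ℂ := fun s => if s ≤ 1 / 2 then g2 s else R s
  have hB : ∀ s : ℝ, 0 < s → ContinuousAt B s := by
    intro s hs
    have hs0 : (s : ℂ) ≠ 0 := by exact_mod_cast hs.ne'
    refine ContinuousAt.div cg.continuousAt ?_ ?_
    · exact ((continuous_const.mul Complex.continuous_ofReal).mul continuous_const).continuousAt
    · exact mul_ne_zero (mul_ne_zero (by norm_num) hs0) (pow_ne_zero _ hħ0)
  have hA : ∀ s : ℝ, 0 < s → ContinuousAt A s := by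
    intro s hs
    have hs0 : (s : ℂ) ≠ 0 := by exact_mod_cast hs.ne'
    refine ContinuousAt.div ?_ ?_ ?_
    · exact ((continuous_const.mul cg1).neg.sub (continuous_const.mul cg)).continuousAt
    · exact (continuous_const.mul Complex.continuous_ofReal).continuousAt
    · exact mul_ne_zero (by norm_num) hs0
  have hpr : ∀ s, 0 < pr s := fun s => lt_of_lt_of_le one_pos (le_max_left _ _)
  have cpr : Continuous pr := by fun_prop
  have hR : ∀ s : ℝ, 0 < s → ContinuousAt R s := by
    intro s hs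
    refine (hA s hs).add (ContinuousAt.mul continuousAt_const (ContinuousAt.sub ?_ continuousAt_const))
    exact ContinuousAt.comp (hB (pr s) (hpr s)) cpr.continuousAt
  -- the ODE solved for g2
  have hg2 : ∀ s : ℝ, 0 < s → s ≠ 1 → s ≠ 4 → g2 s = A s + vv s * B s := by
    intro s hs h1 h4
    have hs0 : (s : ℂ) ≠ 0 := by exact_mod_cast hs.ne'
    have h := hprof.eq s hs.le h1 h4
    have e : 4 * (s : ℂ) * g2 s = 4 * (s : ℂ) * (A s + vv s * B s) := by
      have e2 : 4 * (s : ℂ) * (A s + vv s * B s) =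
          -(2 * ((d + 2 * ℓ : ℕ) : ℂ) * g1 s) - (z - vv s) / (ħ : ℂ) ^ 2 * g s := by
        simp only [A, B]
        field_simp
        ring
      rw [e2]
      linear_combination h
    exact mul_left_cancel₀ (mul_ne_zero (by norm_num) hs0) e
  -- R on the pieces
  have hR01 : ∀ s : ℝ, 0 < s → s < 1 → g2 s = R s := by
    intro s h0 h1
    rw [hg2 s h0 h1.ne (by linarith)]
    have hv : vv s = 0 := by
      unfold vv
      rw [if_neg (by rintro ⟨h, -⟩; linarith)]
    have hp : pr s = 1 := by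
      simp only [pr]
      rw [min_eq_left (by linarith), max_eq_left h1.le]
    simp only [R, hp, hv]
    ring
  have hG2R : ∀ s : ℝ, 0 < s → G2 s = R s := by
    intro s hs
    simp only [G2]
    split_ifs with h
    · exact hR01 s hs (by linarith)
    · rfl
  have cG2 : Continuous G2 := by
    rw [continuous_iff_continuousAt]
    intro s
    by_cases hs : 0 < s
    · refine (hR s hs).congr ?_
      filter_upwards [Ioi_mem_nhds hs] with y hy
      exact (hG2R y hy).symm
    · have h1 : ContinuousAt g2 s := (hprof.d2 s (by intro h; rw [h] at hs; norm_num at hs)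
        (by intro h; rw [h] at hs; norm_num at hs)).2
      refine h1.congr ?_
      filter_upwards [Iio_mem_nhds (show s < 1 / 2 by linarith)] with y hy
      simp only [G2]
      rw [if_pos (le_of_lt hy)]
  have hJ : ∀ s : ℝ, s ≠ 1 → s ≠ 4 →
      G2 s = g2 s - J1 * (if 1 < s then 1 else 0) - J4 * (if 4 < s then 1 else 0) := by
    intro s h1 h4
    by_cases hs : s ≤ 1 / 2
    · simp only [G2]
      rw [if_pos hs, if_neg (by linarith), if_neg (by linarith)]
      ring
    · push Not at hs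
      have hs0 : 0 < s := by linarith
      rw [hG2R s hs0, hg2 s hs0 h1 h4]
      rcases lt_or_gt_of_ne h1 with h | h
      · have hv : vv s = 0 := by
          unfold vv
          rw [if_neg (by rintro ⟨h, -⟩; linarith)]
        have hp : pr s = 1 := by
          simp only [pr]
          rw [min_eq_left (by linarith), max_eq_left h.le]
        rw [if_neg (by linarith), if_neg (by linarith)]
        simp only [R, hp, hv]
        ring
      · rcases lt_or_gt_of_ne h4 with h' | h'
        · have hv : vv s = Complex.I := by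
            unfold vv
            rw [if_pos ⟨h, h'⟩]
          have hp : pr s = s := by
            simp only [pr]
            rw [min_eq_left h'.le, max_eq_right h.le]
          rw [if_pos h, if_neg (by linarith)]
          simp only [R, hp, hv, J1]
          ring
        · have hv : vv s = 0 := by
            unfold vv
            rw [if_neg (by rintro ⟨-, h⟩; linarith)]
          have hp : pr s = 4 := by
            simp only [pr]
            rw [min_eq_right h'.le, max_eq_right (by norm_num)]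
          rw [if_pos h, if_pos h']
          simp only [R, hp, hv, J1, J4]
          ring
  have hG : ∀ s, HasDerivAt G (G1 s) s := by
    intro s
    exact ((hprof.d1 s).sub ((posPart2_deriv 1 s).const_mul J1)).sub
      ((posPart2_deriv 4 s).const_mul J4)
  have cpp : ∀ c : ℝ, Continuous (fun s : ℝ => ((max (s - c) 0 : ℝ) : ℂ)) := fun c =>
    Complex.continuous_ofReal.comp (by fun_prop)
  have cpp2 : ∀ c : ℝ, Continuous (fun s : ℝ => (((max (s - c) 0) ^ 2 / 2 : ℝ) : ℂ)) := fun c =>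
    Complex.continuous_ofReal.comp (by fun_prop)
  have cG1 : Continuous G1 :=
    (cg1.sub (continuous_const.mul (cpp 1))).sub (continuous_const.mul (cpp 4))
  have cG : Continuous G :=
    (cg.sub (continuous_const.mul (cpp2 1))).sub (continuous_const.mul (cpp2 4))
  have hG1 : ∀ s, HasDerivAt G1 (G2 s) s := by
    apply hasDerivAt_of_off G1 G2 {1, 4} (Set.toFinite _).countable cG1 cG2
    intro s hs
    simp only [mem_insert_iff, mem_singleton_iff, not_or] at hs
    rw [hJ s hs.1 hs.2]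
    exact (((hprof.d2 s hs.1 hs.2).1).sub ((posPart_deriv 1 s hs.1).const_mul J1)).sub
      ((posPart_deriv 4 s hs.2).const_mul J4)
  have w1 := hW1 d ℓ P G G1 G2 hd hP (fun s => ⟨hG s, hG1 s⟩) cG2 φ hφ
  have w2 := hW2 d ℓ P 1 hd hP φ hφ
  have w4 := hW2 d ℓ P 4 hd hP φ hφ
  -- decomposition of the left side
  have hsum : ∑ i, pair (dpsi P g g1 i) (pd i φ) = ∑ i, pair (dpsi P G G1 i) (pd i φ) +
      J1 * ∑ i, pair (dpsi P (fun s => (((max (s - 1) 0) ^ 2 / 2 : ℝ) : ℂ))
          (fun s => ((max (s - 1) 0 : ℝ) : ℂ)) i) (pd i φ) +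
      J4 * ∑ i, pair (dpsi P (fun s => (((max (s - 4) 0) ^ 2 / 2 : ℝ) : ℂ))
          (fun s => ((max (s - 4) 0 : ℝ) : ℂ)) i) (pd i φ) := by
    rw [Finset.mul_sum, Finset.mul_sum, ← Finset.sum_add_distrib, ← Finset.sum_add_distrib]
    apply Finset.sum_congr rfl
    intro i _
    unfold pair
    rw [← integral_const_mul, ← integral_const_mul, ← integral_add, ← integral_add]
    · congr 1
      funext x
      simp only [dpsi, G, G1]
      ring
    · exact (int_mul_test _ (dpsi_cont P _ _ cG cG1 i) _ (pd_cont i φ hφ) (pd_cs i φ hφ)).add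
        ((int_mul_test _ (dpsi_cont P _ _ (cpp2 1) (cpp 1) i) _ (pd_cont i φ hφ)
          (pd_cs i φ hφ)).const_mul _)
    · exact (int_mul_test _ (dpsi_cont P _ _ (cpp2 4) (cpp 4) i) _ (pd_cont i φ hφ)
          (pd_cs i φ hφ)).const_mul _
    · exact int_mul_test _ (dpsi_cont P _ _ cG cG1 i) _ (pd_cont i φ hφ) (pd_cs i φ hφ)
    · exact (int_mul_test _ (dpsi_cont P _ _ (cpp2 1) (cpp 1) i) _ (pd_cont i φ hφ)
          (pd_cs i φ hφ)).const_mul _
  rw [hsum, w1, w2, w4]
  -- the final identity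
  have i0 : Integrable (fun x => (((MvPolynomial.eval (fun j => x j) P : ℝ) : ℂ) *
      (4 * ((‖x‖ ^ 2 : ℝ) : ℂ) * G2 (‖x‖ ^ 2) + 2 * ((d : ℂ) + 2 * ℓ) * G1 (‖x‖ ^ 2))) * φ x)
      volume := by
    apply int_mul_test _ _ φ hφ.1.continuous hφ.2
    refine (Complex.continuous_ofReal.comp (ev_cont P)).mul (Continuous.add ?_ ?_)
    · exact (continuous_const.mul (Complex.continuous_ofReal.comp (continuous_norm.pow 2))).mul
        (cG2.comp (continuous_norm.pow 2))
    · exact continuous_const.mul (cG1.comp (continuous_norm.pow 2))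
  have i1 := intF (ℓ := ℓ) P 1 φ hφ
  have i4 := intF (ℓ := ℓ) P 4 φ hφ
  have iV : Integrable (fun x => VV d x * psi P g x * φ x) volume := by
    have hb : Integrable (fun x => psi P g x * φ x) volume :=
      int_mul_test _ (psi_cont P g cg) φ hφ.1.continuous hφ.2
    have hVm : Measurable (VV d) := by
      unfold VV
      refine Measurable.ite ?_ measurable_const measurable_const
      exact (measurableSet_lt measurable_const continuous_norm.measurable).inter
        (measurableSet_lt continuous_norm.measurable measurable_const)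
    have := hb.bdd_mul (c := 1) hVm.aestronglyMeasurable (Filter.Eventually.of_forall fun x => by
      unfold VV
      split_ifs <;> simp)
    refine this.congr (Filter.Eventually.of_forall fun x => ?_)
    ring
  have hnull : ∀ᵐ x ∂(volume : Measure (E d)), ‖x‖ ≠ 1 ∧ ‖x‖ ≠ 2 := by
    have h1 : (volume : Measure (E d)) (Metric.sphere 0 1) = 0 :=
      Measure.addHaar_sphere_of_ne_zero _ _ (by norm_num)
    have h2 : (volume : Measure (E d)) (Metric.sphere 0 2) = 0 :=
      Measure.addHaar_sphere_of_ne_zero _ _ (by norm_num)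
    have h1' : ∀ᵐ x ∂(volume : Measure (E d)), x ∉ Metric.sphere (0 : E d) 1 :=
      measure_eq_zero_iff_ae_notMem.mp h1
    have h2' : ∀ᵐ x ∂(volume : Measure (E d)), x ∉ Metric.sphere (0 : E d) 2 :=
      measure_eq_zero_iff_ae_notMem.mp h2
    filter_upwards [h1', h2'] with x hx1 hx2
    simp only [mem_sphere_iff_norm, sub_zero] at hx1 hx2
    exact ⟨hx1, hx2⟩
  unfold pair
  rw [← sub_eq_zero]
  have key : ∀ᵐ x ∂(volume : Measure (E d)),
      (-((ħ ^ 2 : ℝ) : ℂ)) * ((((MvPolynomial.eval (fun j => x j) P : ℝ) : ℂ) *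
        (4 * ((‖x‖ ^ 2 : ℝ) : ℂ) * G2 (‖x‖ ^ 2) + 2 * ((d : ℂ) + 2 * ℓ) * G1 (‖x‖ ^ 2))) * φ x) +
      (-((ħ ^ 2 : ℝ) : ℂ) * J1) * ((((MvPolynomial.eval (fun j => x j) P : ℝ) : ℂ) *
          (4 * ((‖x‖ ^ 2 : ℝ) : ℂ) * (if 1 < ‖x‖ ^ 2 then 1 else 0) +
            2 * ((d : ℂ) + 2 * ℓ) * ((max (‖x‖ ^ 2 - 1) 0 : ℝ) : ℂ))) * φ x) +
      (-((ħ ^ 2 : ℝ) : ℂ) * J4) * ((((MvPolynomial.eval (fun j => x j) P : ℝ) : ℂ) *
          (4 * ((‖x‖ ^ 2 : ℝ) : ℂ) * (if 4 < ‖x‖ ^ 2 then 1 else 0) +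
            2 * ((d : ℂ) + 2 * ℓ) * ((max (‖x‖ ^ 2 - 4) 0 : ℝ) : ℂ))) * φ x) +
      VV d x * psi P g x * φ x = z * psi P g x * φ x := by
    filter_upwards [hnull] with x hx
    have hs0 : (0 : ℝ) ≤ ‖x‖ ^ 2 := by positivity
    have hs1 : ‖x‖ ^ 2 ≠ 1 := by
      intro h
      apply hx.1
      nlinarith [norm_nonneg x]
    have hs4 : ‖x‖ ^ 2 ≠ 4 := by
      intro h
      apply hx.2
      nlinarith [norm_nonneg x]
    have hVv : VV d x = vv (‖x‖ ^ 2) := by
      unfold VV vv
      have e1 : (1 < ‖x‖ ∧ ‖x‖ < 2) ↔ (1 < ‖x‖ ^ 2 ∧ ‖x‖ ^ 2 < 4) := by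
        constructor
        · rintro ⟨h1, h2⟩
          constructor <;> nlinarith
        · rintro ⟨h1, h2⟩
          have := norm_nonneg x
          constructor <;> nlinarith
      simp only [e1]
    have h := hprof.eq (‖x‖ ^ 2) hs0 hs1 hs4
    rw [hJ (‖x‖ ^ 2) hs1 hs4, hVv]
    have h' : ((ħ ^ 2 : ℝ) : ℂ) * (4 * ((‖x‖ ^ 2 : ℝ) : ℂ) * g2 (‖x‖ ^ 2) +
        2 * ((d : ℂ) + 2 * ℓ) * g1 (‖x‖ ^ 2)) + (z - vv (‖x‖ ^ 2)) * g (‖x‖ ^ 2) = 0 := by
      have h2 : ((ħ ^ 2 : ℝ) : ℂ) * (4 * ((‖x‖ ^ 2 : ℝ) : ℂ) * g2 (‖x‖ ^ 2) +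
        2 * ((d + 2 * ℓ : ℕ) : ℂ) * g1 (‖x‖ ^ 2) + (z - vv (‖x‖ ^ 2)) / (ħ : ℂ) ^ 2 * g (‖x‖ ^ 2)) = 0 := by
        rw [h, mul_zero]
      rw [mul_add] at h2
      have h3 : ((ħ ^ 2 : ℝ) : ℂ) * ((z - vv (‖x‖ ^ 2)) / (ħ : ℂ) ^ 2 * g (‖x‖ ^ 2)) =
          (z - vv (‖x‖ ^ 2)) * g (‖x‖ ^ 2) := by
        push_cast
        field_simp
      rw [h3] at h2
      push_cast at h2 ⊢
      linear_combination h2
    simp only [G1, psi]
    linear_combination (-(((MvPolynomial.eval (fun j => x j) P : ℝ) : ℂ) * φ x)) * h'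
  have hint := integral_congr_ae key
  rw [integral_add, integral_add, integral_add, integral_const_mul, integral_const_mul,
    integral_const_mul] at hint
  · rw [← hint]
    ring
  · exact i0.const_mul _
  · exact i1.const_mul _
  · exact (i0.const_mul _).add (i1.const_mul _)
  · exact i4.const_mul _
  · exact ((i0.const_mul _).add (i1.const_mul _)).add (i4.const_mul _)
  · exact iV

end Pool.Agent.Run7.h102.LT
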